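import Pool.Agent.H964R2.Normal
import Pool.Agent.Helper819.Gr.Scheme

/-!
For all `n ≥ 2` and `d ≥ 3` the image of the morphism
`ℙX_n^d // SL_n ⟶ Z_n^{d-1} // SL_n` of quotients induced by the gradient morphism is closed and,
with its reduced structure, it is a normal variety.
-/

namespace Pool.Agent.Results.MP_f4e0a3_ag.NormalImage

open Pool.Agent.Helper819.GradMap Pool.Agent.Helper819.Gr

/-- The coordinate ring `ℂ[Y] / I(Y')` of the image `Y'` of the morphism
`ℙX_n^d // SL_n ⟶ Z_n^{d-1} // SL_n = Y` induced by the gradient morphism, with its reduced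
structure: the ring of regular functions on `Y` modulo those which vanish at every point of the
image. -/
abbrev ImageRing (n d : ℕ) (hd : 3 ≤ d) : Type :=
  InvRing n (Z n (d - 1)) ⧸ PrimeSpectrum.vanishingIdeal (gradImage n d hd)

theorem invRing_ic (n d : ℕ) (hn : 2 ≤ n) (hd : 3 ≤ d) :
    IsDomain (InvRing 1 (PX n d)) ∧ IsIntegrallyClosed (InvRing 1 (PX n d)) := by
  obtain ⟨N, rfl⟩ : ∃ N, n = N + 1 := ⟨n - 1, by omega⟩
  obtain ⟨e, rfl⟩ : ∃ e, d = e + 1 := ⟨d - 1, by omega⟩
  obtain ⟨𝓡⟩ := exists_ResD (k := ℂ) (N := N) (e := e) (by omega)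
  obtain ⟨h1, h2⟩ := Pool.Agent.H964R2.Normal.SS_ic 𝓡 (by omega)
  let E : InvRing 1 (PX (N + 1) (e + 1)) ≃+* 𝓡.SS :=
    RingEquiv.ofBijective (cmp 𝓡 (by omega)).toRingHom
      ⟨cmp_injective 𝓡 (by omega), cmp_surjective 𝓡 hd⟩
  exact ⟨E.injective.isDomain E.toRingHom, IsIntegrallyClosed.of_equiv E.symm⟩

/-- For all `n ≥ 2` and `d ≥ 3` the image of the morphism `ℙX_n^d // SL_n ⟶ Z_n^{d-1} // SL_n`
induced by the gradient morphism is closed, and it is a normal variety (with its reduced
structure): its coordinate ring is an integrally closed domain. -/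
theorem result (n d : ℕ) (hn : 2 ≤ n) (hd : 3 ≤ d) :
    IsClosed (gradImage n d hd) ∧ IsDomain (ImageRing n d hd) ∧
      IsIntegrallyClosed (ImageRing n d hd) := by
  obtain ⟨h1, h2⟩ := invRing_ic n d hn hd
  have hsurj : Function.Surjective (pullback n d hd).toRingHom := by
    obtain ⟨N, rfl⟩ : ∃ N, n = N + 1 := ⟨n - 1, by omega⟩
    obtain ⟨e, rfl⟩ : ∃ e, d = e + 1 := ⟨d - 1, by omega⟩
    exact pullback_surjective hd
  have himg : gradImage n d hd =
      PrimeSpectrum.zeroLocus (RingHom.ker (pullback n d hd).toRingHom : Set _) :=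
    range_comap_of_surjective _ _ hsurj
  have hprime : (RingHom.ker (pullback n d hd).toRingHom).IsPrime := RingHom.ker_isPrime _
  have hker : PrimeSpectrum.vanishingIdeal (gradImage n d hd) =
      RingHom.ker (pullback n d hd).toRingHom := by
    rw [himg, PrimeSpectrum.vanishingIdeal_zeroLocus_eq_radical, hprime.radical]
  have E : ImageRing n d hd ≃+* InvRing 1 (PX n d) :=
    (Ideal.quotEquivOfEq hker).trans (RingHom.quotientKerEquivOfSurjective hsurj)
  refine ⟨?_, E.injective.isDomain E.toRingHom, IsIntegrallyClosed.of_equiv E.symm⟩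
  rw [himg]
  exact PrimeSpectrum.isClosed_zeroLocus _

end Pool.Agent.Results.MP_f4e0a3_ag.NormalImage
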